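import Pool.Agent.H877R3.DR.GraphDefs
import Pool.Agent.H622R2.CoNP

/-!
# The algorithm for the languages of non-squares and squares of words of `A`
-/

set_option autoImplicit false

namespace Pool.Agent.H877R3.DR

open Pool.Agent.NPC

abbrev Edges : Type := List (ℕ × ℕ × ℕ)

theorem Walk.append {E : Edges} {u v w : ℕ} {l l' : List ℕ} (h : Walk E u v l)
    (h' : Walk E v w l') : Walk E u w (l ++ l') := by
  induction h with
  | nil u => exact h'
  | cons he _ ih => exact Walk.cons he (ih h')

theorem Walk.snoc {E : Edges} {u v w a : ℕ} {l : List ℕ} (h : Walk E u v l)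
    (he : (v, a, w) ∈ E) : Walk E u w (l ++ [a]) :=
  h.append (Walk.cons he (Walk.nil w))

theorem Walk.split {E : Edges} {u w : ℕ} {l l' : List ℕ} (h : Walk E u w (l ++ l')) :
    ∃ v, Walk E u v l ∧ Walk E v w l' := by
  induction l generalizing u with
  | nil => exact ⟨u, Walk.nil u, h⟩
  | cons a l ih =>
    cases h with
    | cons he h =>
      obtain ⟨v, h1, h2⟩ := ih h
      exact ⟨v, Walk.cons he h1, h2⟩

theorem Walk.unsnoc {E : Edges} {u w a : ℕ} {l : List ℕ} (h : Walk E u w (l ++ [a])) :
    ∃ v, Walk E u v l ∧ (v, a, w) ∈ E := by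
  obtain ⟨v, h1, h2⟩ := h.split
  cases h2 with
  | cons he h => cases h; exact ⟨v, h1, he⟩

/-! ### Acyclicity -/

/-- One step of reachability. -/
def stepV (E : Edges) (R : List ℕ) : List ℕ := (E.filter fun e => decide (e.1 ∈ R)).map fun e => e.2.2

theorem mem_stepV {E : Edges} {R : List ℕ} {v : ℕ} :
    v ∈ stepV E R ↔ ∃ u a, u ∈ R ∧ (u, a, v) ∈ E := by
  simp only [stepV, List.mem_map, List.mem_filter, decide_eq_true_eq, Prod.exists]
  constructor
  · rintro ⟨u, a, w, ⟨h1, h2⟩, rfl⟩
    exact ⟨u, a, h2, h1⟩
  · rintro ⟨u, a, h1, h2⟩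
    exact ⟨u, a, v, ⟨h2, h1⟩, rfl⟩

theorem mem_iter_stepV {E : Edges} {R : List ℕ} (n : ℕ) (v : ℕ) :
    v ∈ (stepV E)^[n] R ↔ ∃ u ∈ R, ∃ l : List ℕ, l.length = n ∧ Walk E u v l := by
  induction n generalizing v with
  | zero =>
    constructor
    · intro h; exact ⟨v, h, [], rfl, Walk.nil v⟩
    · rintro ⟨u, hu, l, hl, hw⟩
      rw [List.length_eq_zero_iff] at hl
      subst hl
      cases hw
      exact hu
  | succ n ih =>
    rw [Function.iterate_succ_apply', mem_stepV]
    constructor
    · rintro ⟨u, a, hu, he⟩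
      rw [ih] at hu
      obtain ⟨u0, hu0, l, hl, hw⟩ := hu
      exact ⟨u0, hu0, l ++ [a], by simp [hl], hw.snoc he⟩
    · rintro ⟨u0, hu0, l, hl, hw⟩
      rcases List.eq_nil_or_concat l with rfl | ⟨l', a, rfl⟩
      · simp at hl
      · rw [List.concat_eq_append] at hw hl
        obtain ⟨v', h1, h2⟩ := hw.unsnoc
        refine ⟨v', a, (ih v').2 ⟨u0, hu0, l', by simpa using hl, h1⟩, h2⟩

theorem Walk.mono {E E' : Edges} (h : ∀ e ∈ E, e ∈ E') {u w : ℕ} {l : List ℕ} (hw : Walk E u w l) :
    Walk E' u w l := by
  induction hw with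
  | nil u => exact Walk.nil u
  | cons he _ ih => exact Walk.cons (h _ he) ih

theorem Walk.avoid {E : Edges} (hE : Acyclic E) {u a v : ℕ} (he : (u, a, v) ∈ E) {x w : ℕ}
    {l : List ℕ} (hw : Walk E x w l) (hx : ∃ l0, Walk E v x l0) :
    Walk (E.filter fun e => decide (e ≠ (u, a, v))) x w l := by
  induction hw with
  | nil u => exact Walk.nil u
  | @cons x b y w l he' _ ih =>
    obtain ⟨l0, h0⟩ := hx
    refine Walk.cons ?_ (ih ⟨l0 ++ [b], h0.snoc he'⟩)
    rw [List.mem_filter, decide_eq_true_eq]
    refine ⟨he', fun heq => ?_⟩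
    simp only [Prod.mk.injEq] at heq
    obtain ⟨rfl, rfl, rfl⟩ := heq
    have := hE _ _ (Walk.cons he' h0)
    simp at this

theorem Walk.length_le {n : ℕ} : ∀ {E : Edges}, E.length = n → Acyclic E → ∀ {u w : ℕ} {l : List ℕ},
    Walk E u w l → l.length ≤ n := by
  induction n using Nat.strong_induction_on with
  | _ n ih =>
    intro E hn hE u w l hw
    cases hw with
    | nil u => simp
    | @cons u a v w l he hw =>
      have h1 := hw.avoid hE he ⟨[], Walk.nil v⟩
      have h2 : (E.filter fun e => decide (e ≠ (u, a, v))).length < n := by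
        rw [← hn]
        refine lt_of_le_of_ne (List.length_filter_le _ _) fun h => ?_
        rw [List.length_filter_eq_length_iff] at h
        have := h _ he
        simp at this
      have h3 : Acyclic (E.filter fun e => decide (e ≠ (u, a, v))) := fun x l hl =>
        hE x l (hl.mono fun e he => List.mem_of_mem_filter he)
      have := ih _ h2 rfl h3 h1
      simp only [List.length_cons]
      omega

/-- Closed walks can be iterated. -/
theorem Walk.iter {E : Edges} {u : ℕ} {l : List ℕ} (h : Walk E u u l) (k : ℕ) :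
    ∃ l', Walk E u u l' ∧ l'.length = k * l.length := by
  induction k with
  | zero => exact ⟨[], Walk.nil u, by simp⟩
  | succ k ih =>
    obtain ⟨l', h1, h2⟩ := ih
    exact ⟨l' ++ l, h1.append h, by rw [List.length_append, h2]; ring⟩

/-- The test for acyclicity. -/
def acyc (E : Edges) : Bool := ((stepV E)^[E.length] (stepV E (E.map fun e => e.1))).isEmpty

theorem acyc_iff (E : Edges) : acyc E = true ↔ Acyclic E := by
  have hx : ∀ v, v ∈ (stepV E)^[E.length] (stepV E (E.map fun e => e.1)) ↔
      ∃ u ∈ E.map (fun e => e.1), ∃ l : List ℕ, l.length = E.length + 1 ∧ Walk E u v l := by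
    intro v
    rw [← Function.iterate_succ_apply, mem_iter_stepV]
  unfold acyc
  rw [List.isEmpty_iff]
  constructor
  · intro h u l hw
    by_contra hl
    obtain ⟨l', h1, h2⟩ := hw.iter (E.length + 1)
    have hpos : 0 < l.length := List.length_pos_iff.2 hl
    have h3 : E.length + 1 ≤ l'.length := by
      rw [h2]; exact Nat.le_mul_of_pos_right _ hpos
    rw [← List.take_append_drop (E.length + 1) l'] at h1
    obtain ⟨v, h4, _⟩ := h1.split
    have h5 : u ∈ E.map (fun e => e.1) := by
      cases hw with
      | nil => exact absurd rfl hl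
      | cons he _ => exact List.mem_map.2 ⟨_, he, rfl⟩
    have := (hx v).2 ⟨u, h5, _, by rw [List.length_take]; omega, h4⟩
    rw [h] at this
    simp at this
  · intro h
    rw [List.eq_nil_iff_forall_not_mem]
    intro v hv
    obtain ⟨u, _, l, hl, hw⟩ := (hx v).1 hv
    have := Walk.length_le rfl h hw
    omega

/-! ### Representatives of the walks of given length -/

/-- One step for lists of pairs (vertex, word). -/
def stepW (E : Edges) (R : List (ℕ × List ℕ)) : List (ℕ × List ℕ) :=
  E.flatMap fun e => ((R.filter fun p => decide (p.1 = e.1)).take 1).map fun p =>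
    (e.2.2, p.2 ++ [e.2.1])

theorem sound_stepW {E : Edges} {s : ℕ} {n : ℕ} {R : List (ℕ × List ℕ)}
    (h : ∀ p ∈ R, Walk E s p.1 p.2 ∧ p.2.length = n) :
    ∀ p ∈ stepW E R, Walk E s p.1 p.2 ∧ p.2.length = n + 1 := by
  intro p hp
  simp only [stepW, List.mem_flatMap, List.mem_map] at hp
  obtain ⟨e, he, q, hq, rfl⟩ := hp
  have hq' := List.mem_of_mem_take hq
  rw [List.mem_filter, decide_eq_true_eq] at hq'
  obtain ⟨h1, h2⟩ := hq'
  obtain ⟨h3, h4⟩ := h q h1
  refine ⟨?_, by simp [h4]⟩
  have : (q.1, e.2.1, e.2.2) ∈ E := by rw [h2]; exact he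
  exact h3.snoc this

theorem complete_stepW {E : Edges} {s : ℕ} {n : ℕ} {R : List (ℕ × List ℕ)}
    (h : ∀ v l, l.length = n → Walk E s v l → ∃ w, (v, w) ∈ R) :
    ∀ v l, l.length = n + 1 → Walk E s v l → ∃ w, (v, w) ∈ stepW E R := by
  intro v l hl hw
  rcases List.eq_nil_or_concat l with rfl | ⟨l', a, rfl⟩
  · simp at hl
  · rw [List.concat_eq_append] at hw hl
    obtain ⟨v', h1, h2⟩ := hw.unsnoc
    obtain ⟨w, hw'⟩ := h v' l' (by simpa using hl) h1
    have h3 : (v', w) ∈ R.filter fun p => decide (p.1 = v') := by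
      rw [List.mem_filter]; exact ⟨hw', by simp⟩
    obtain ⟨q, t, hqt⟩ := List.exists_cons_of_ne_nil (List.ne_nil_of_mem h3)
    refine ⟨q.2 ++ [a], ?_⟩
    simp only [stepW, List.mem_flatMap, List.mem_map]
    refine ⟨(v', a, v), h2, q, ?_, rfl⟩
    simp only
    rw [hqt]
    simp

theorem sound_iterW {E : Edges} {s : ℕ} (n : ℕ) :
    ∀ p ∈ (stepW E)^[n] [(s, [])], Walk E s p.1 p.2 ∧ p.2.length = n := by
  induction n with
  | zero =>
    intro p hp
    simp only [Function.iterate_zero, id_eq, List.mem_singleton] at hp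
    subst hp
    exact ⟨Walk.nil s, rfl⟩
  | succ n ih =>
    rw [Function.iterate_succ_apply']
    exact sound_stepW ih

theorem complete_iterW {E : Edges} {s : ℕ} (n : ℕ) :
    ∀ v l, l.length = n → Walk E s v l → ∃ w, (v, w) ∈ (stepW E)^[n] [(s, [])] := by
  induction n with
  | zero =>
    intro v l hl hw
    rw [List.length_eq_zero_iff] at hl
    subst hl
    cases hw
    exact ⟨[], by simp⟩
  | succ n ih =>
    rw [Function.iterate_succ_apply']
    exact complete_stepW ih

/-- All representatives of walks from `s` of length at most `n`. -/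
def allW (E : Edges) (s : ℕ) (n : ℕ) : List (ℕ × List ℕ) :=
  ((fun p : List (ℕ × List ℕ) × List (ℕ × List ℕ) => (stepW E p.1, p.2 ++ stepW E p.1))^[n]
    ([(s, [])], [(s, [])])).2

theorem allW_aux (E : Edges) (s : ℕ) (n : ℕ) :
    ((fun p : List (ℕ × List ℕ) × List (ℕ × List ℕ) => (stepW E p.1, p.2 ++ stepW E p.1))^[n]
      ([(s, [])], [(s, [])])).1 = (stepW E)^[n] [(s, [])] ∧
    ∀ p, p ∈ allW E s n ↔ ∃ k ≤ n, p ∈ (stepW E)^[k] [(s, [])] := by
  induction n with
  | zero => simp [allW]
  | succ n ih =>
    obtain ⟨h1, h2⟩ := ih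
    unfold allW at h2 ⊢
    rw [Function.iterate_succ_apply']
    constructor
    · simp only
      rw [h1, Function.iterate_succ_apply']
    · intro p
      simp only [List.mem_append]
      rw [h1, h2, ← Function.iterate_succ_apply' (stepW E)]
      constructor
      · rintro (⟨k, hk, hp⟩ | hp)
        · exact ⟨k, by omega, hp⟩
        · exact ⟨n + 1, le_rfl, hp⟩
      · rintro ⟨k, hk, hp⟩
        rcases Nat.lt_or_ge k (n + 1) with h | h
        · exact Or.inl ⟨k, by omega, hp⟩
        · have : k = n + 1 := by omega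
          subst this
          exact Or.inr hp

/-! ### Is there a second word? -/

/-- One step: pairs (vertex, does the word read so far differ from the given one). -/
def stepD (E : Edges) (a : ℕ) (R : List (ℕ × Bool)) : List (ℕ × Bool) :=
  E.flatMap fun e => (if (e.1, false) ∈ R then [(e.2.2, decide (e.2.1 ≠ a))] else []) ++
    (if (e.1, true) ∈ R then [(e.2.2, true)] else [])

theorem mem_stepD {E : Edges} {a : ℕ} {R : List (ℕ × Bool)} {v : ℕ} {b : Bool} :
    (v, b) ∈ stepD E a R ↔ ∃ u c d, (u, c, v) ∈ E ∧ (u, d) ∈ R ∧ b = (d || decide (c ≠ a)) := by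
  simp only [stepD, List.mem_flatMap, List.mem_append]
  constructor
  · rintro ⟨⟨u, c, w⟩, he, h | h⟩
    · split_ifs at h with h'
      · simp only [List.mem_singleton, Prod.mk.injEq] at h
        obtain ⟨rfl, rfl⟩ := h
        exact ⟨u, c, false, he, h', by simp⟩
      · simp at h
    · split_ifs at h with h'
      · simp only [List.mem_singleton, Prod.mk.injEq] at h
        obtain ⟨rfl, rfl⟩ := h
        exact ⟨u, c, true, he, h', by simp⟩
      · simp at h
  · rintro ⟨u, c, d, he, hd, rfl⟩
    refine ⟨(u, c, v), he, ?_⟩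
    cases d with
    | false => left; simp only; rw [if_pos hd]; simp
    | true => right; simp only; rw [if_pos hd]; simp

theorem mem_foldD {E : Edges} {s : ℕ} (x : List ℕ) (v : ℕ) (b : Bool) :
    (v, b) ∈ x.foldl (fun R a => stepD E a R) [(s, false)] ↔
      ∃ l, l.length = x.length ∧ Walk E s v l ∧ b = decide (l ≠ x) := by
  induction x using List.reverseRecOn generalizing v b with
  | nil =>
    simp only [List.foldl_nil, List.mem_singleton, Prod.mk.injEq, List.length_nil,
      List.length_eq_zero_iff]
    constructor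
    · rintro ⟨rfl, rfl⟩
      exact ⟨[], rfl, Walk.nil v, by simp⟩
    · rintro ⟨l, rfl, hw, rfl⟩
      cases hw
      simp
  | append_singleton x a ih =>
    rw [List.foldl_append, List.foldl_cons, List.foldl_nil, mem_stepD]
    constructor
    · rintro ⟨u, c, d, he, hd, rfl⟩
      rw [ih] at hd
      obtain ⟨l, hl, hw, rfl⟩ := hd
      refine ⟨l ++ [c], by simp [hl], hw.snoc he, ?_⟩
      rw [Bool.eq_iff_iff]
      simp only [ne_eq, Bool.or_eq_true, decide_eq_true_eq]
      constructor
      · rintro h heq
        obtain ⟨h1, h2⟩ := List.append_inj heq hl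
        rcases h with h | h
        · exact h h1
        · exact h (by simpa using h2)
      · intro h
        by_contra hcon
        push Not at hcon
        obtain ⟨h1, h2⟩ := hcon
        exact h (by rw [h1, h2])
    · rintro ⟨l, hl, hw, rfl⟩
      rcases List.eq_nil_or_concat l with rfl | ⟨l', c, rfl⟩
      · simp at hl
      · rw [List.concat_eq_append] at hw hl ⊢
        obtain ⟨u, h1, h2⟩ := hw.unsnoc
        have hl' : l'.length = x.length := by simpa using hl
        refine ⟨u, c, decide (l' ≠ x), h2, (ih _ _).2 ⟨l', hl', h1, rfl⟩, ?_⟩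
        rw [Bool.eq_iff_iff]
        simp only [ne_eq, Bool.or_eq_true, decide_eq_true_eq]
        constructor
        · intro h
          by_contra hcon
          push Not at hcon
          obtain ⟨h3, h4⟩ := hcon
          exact h (by rw [h3, h4])
        · rintro h heq
          obtain ⟨h3, h4⟩ := List.append_inj heq hl'
          rcases h with h | h
          · exact h h3
          · exact h (by simpa using h4)

/-- Some walk of length `|x|` from `s` to `v` has a yield different from `x`. -/
def diff (E : Edges) (s v : ℕ) (x : List ℕ) : Bool :=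
  decide ((v, true) ∈ x.foldl (fun R a => stepD E a R) [(s, false)])

theorem diff_iff {E : Edges} {s v : ℕ} {x : List ℕ} :
    diff E s v x = true ↔ ∃ l, l.length = x.length ∧ Walk E s v l ∧ l ≠ x := by
  unfold diff
  rw [decide_eq_true_eq, mem_foldD]
  constructor
  · rintro ⟨l, h1, h2, h3⟩
    exact ⟨l, h1, h2, by simpa using h3.symm⟩
  · rintro ⟨l, h1, h2, h3⟩
    exact ⟨l, h1, h2, by simpa using h3⟩

/-! ### The whole test -/

/-- A word over `{0, 1}` as a bit string. -/
def toBits (x : List ℕ) : List Bool := x.map fun a => decide (a = 1)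

/-- The test for one representative `(v, x)`. -/
def test1 (V : List Bool → List Bool) (E : Edges) (s t : ℕ) (v : ℕ) (x : List ℕ) : Bool :=
  (decide (v = t) && decide (x.length % 2 = 1)) ||
  (((stepW E)^[x.length] [(v, [])]).any fun q => decide (q.1 = t) &&
    (decide (q.2 ≠ x) || (diff E s v x || (diff E v t x || decide (V (toBits x) = [true])))))

/-- The decision procedure. -/
def test (V : List Bool → List Bool) (I : Inst) : Bool :=
  (I.1.all fun e => decide (e.2.1 < 2)) && (acyc I.1 &&
    (allW I.1 I.2.1 I.1.length).any fun p => test1 V I.1 I.2.1 I.2.2 p.1 p.2)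

/-- The language: all words that are not squares, and the squares of the words of `A`. -/
def sqLang (A : Set (List Bool)) : Set (List (Fin 2)) :=
  {w | ∀ x, w = x ++ x → toBits (x.map Fin.val) ∈ A}

theorem lift_word {E : Edges} (hE : ∀ e ∈ E, e.2.1 < 2) {u v : ℕ} {l : List ℕ}
    (h : Walk E u v l) : ∃ w : List (Fin 2), w.map Fin.val = l := by
  induction h with
  | nil u => exact ⟨[], rfl⟩
  | @cons u a v w l he _ ih =>
    obtain ⟨w, hw⟩ := ih
    exact ⟨⟨a, hE _ he⟩ :: w, by simp [hw]⟩

theorem test_iff (A : Set (List Bool)) (V : List Bool → List Bool) (hV : ∀ x, x ∈ A ↔ V x = [true])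
    (I : Inst) : DagReach (sqLang A) I ↔ test V I = true := by
  obtain ⟨E, s, t⟩ := I
  unfold DagReach test
  simp only [Bool.and_eq_true, List.all_eq_true, decide_eq_true_eq, acyc_iff, List.any_eq_true]
  constructor
  · rintro ⟨hE, hac, w, hw, hwalk⟩
    refine ⟨hE, hac, ?_⟩
    have hlen := Walk.length_le rfl hac hwalk
    set l := w.map Fin.val with hl
    rcases Nat.even_or_odd l.length with hev | hodd
    · obtain ⟨i, hi⟩ := hev
      have hsplit := (List.take_append_drop i l).symm
      rw [hsplit] at hwalk
      obtain ⟨v, h1, h2⟩ := hwalk.split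
      have hx' : (l.take i).length = i := by rw [List.length_take]; omega
      have hy' : (l.drop i).length = i := by rw [List.length_drop]; omega
      obtain ⟨x, hx⟩ := complete_iterW i v _ hx' h1
      obtain ⟨hxs, hxl⟩ := sound_iterW i _ hx
      simp only at hxs hxl
      obtain ⟨y, hy⟩ := complete_iterW (E := E) (s := v) i t _ hy' h2
      refine ⟨(v, x), (((allW_aux E s _).2) _).2 ⟨i, by omega, hx⟩, ?_⟩
      unfold test1
      simp only [Bool.or_eq_true, Bool.and_eq_true, decide_eq_true_eq, List.any_eq_true]
      right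
      refine ⟨(t, y), by rw [hxl]; exact hy, rfl, ?_⟩
      by_cases hyx : y ≠ x
      · exact Or.inl hyx
      · push Not at hyx
        right
        by_cases hd1 : l.take i ≠ x
        · left
          rw [diff_iff]
          exact ⟨_, by rw [hx', hxl], h1, hd1⟩
        · right
          by_cases hd2 : l.drop i ≠ x
          · left
            rw [diff_iff]
            exact ⟨_, by rw [hy', hxl], h2, hd2⟩
          · right
            push Not at hd1 hd2
            rw [← hV]
            obtain ⟨wx, hwx⟩ := lift_word hE h1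
            have h3 : w = wx ++ wx := by
              apply List.map_injective_iff.2 Fin.val_injective
              rw [List.map_append, hwx, ← hl, hd1]
              conv_lhs => rw [hsplit, hd1, hd2]
            have := hw wx h3
            rwa [hwx, hd1] at this
    · obtain ⟨x, hx⟩ := complete_iterW l.length t l rfl hwalk
      obtain ⟨hxs, hxl⟩ := sound_iterW _ _ hx
      refine ⟨(t, x), ((allW_aux E s _).2 _).2 ⟨l.length, hlen, hx⟩, ?_⟩
      unfold test1
      simp only [Bool.or_eq_true, Bool.and_eq_true, decide_eq_true_eq]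
      left
      refine ⟨trivial, ?_⟩
      simp only at hxl
      rw [hxl]
      exact Nat.odd_iff.1 hodd
  · rintro ⟨hE, hac, ⟨v, x⟩, hp, ht⟩
    refine ⟨hE, hac, ?_⟩
    obtain ⟨k, hk, hx⟩ := ((allW_aux E s _).2 _).1 hp
    obtain ⟨hxs, hxl⟩ := sound_iterW k _ hx
    simp only at hxs hxl
    unfold test1 at ht
    simp only [Bool.or_eq_true, Bool.and_eq_true, decide_eq_true_eq, List.any_eq_true] at ht
    -- a walk whose yield is not a square
    have nonsq : ∀ l : List ℕ, Walk E s t l → (∀ z, l ≠ z ++ z) →
        ∃ w : List (Fin 2), w ∈ sqLang A ∧ Walk E s t (w.map Fin.val) := by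
      intro l hl hns
      obtain ⟨w, hw⟩ := lift_word hE hl
      refine ⟨w, fun z hz => ?_, by rw [hw]; exact hl⟩
      exact absurd (by rw [← hw, hz, List.map_append]) (hns (z.map Fin.val))
    have ne_sq : ∀ a b : List ℕ, a.length = b.length → a ≠ b → ∀ z, a ++ b ≠ z ++ z := by
      intro a b hab hne z hz
      have h1 := congrArg List.length hz
      simp only [List.length_append] at h1
      obtain ⟨h2, h3⟩ := List.append_inj hz (by omega)
      exact hne (h2.trans h3.symm)
    rcases ht with ⟨rfl, hodd⟩ | ⟨⟨t', y⟩, hy, rfl, ht⟩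
    · refine nonsq x hxs fun z hz => ?_
      have := congrArg List.length hz
      simp only [List.length_append] at this
      omega
    · obtain ⟨hys, hyl⟩ := sound_iterW _ _ hy
      simp only at hys hyl
      rcases ht with ht | ht
      · exact nonsq (x ++ y) (hxs.append hys) (ne_sq x y hyl.symm (fun h => ht h.symm))
      · by_cases hyx : y = x
        · subst hyx
          rcases ht with ht | ht | ht
          · rw [diff_iff] at ht
            obtain ⟨l, h1, h2, h3⟩ := ht
            exact nonsq (l ++ y) (h2.append hys) (ne_sq l y h1 h3)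
          · rw [diff_iff] at ht
            obtain ⟨l, h1, h2, h3⟩ := ht
            exact nonsq (y ++ l) (hxs.append h2) (ne_sq y l h1.symm (fun h => h3 h.symm))
          · rw [← hV] at ht
            obtain ⟨w, hw⟩ := lift_word hE hxs
            refine ⟨w ++ w, fun z hz => ?_, ?_⟩
            · have h1 := congrArg List.length hz
              simp only [List.length_append] at h1
              obtain ⟨h2, _⟩ := List.append_inj hz (by omega)
              rw [← h2, hw]
              exact ht
            · rw [List.map_append, hw]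
              exact hxs.append hys
        · exact nonsq (x ++ y) (hxs.append hys) (ne_sq x y hyl.symm (fun h => hyx h.symm))

end Pool.Agent.H877R3.DR
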