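import Pool.Agent.H877R3.DR.Alg

/-!
# The algorithm runs in polynomial time
-/

set_option autoImplicit false

namespace Pool.Agent.H877R3.DR

open Pool.Agent.NPC

theorem sz_flatMap_le {α β : Type} [TEnc α] [TEnc β] (l : List α) (f : α → List β) (B : ℕ)
    (h : ∀ a ∈ l, sz (f a) ≤ B + 1) : sz (l.flatMap f) ≤ l.length * B + 1 := by
  induction l with
  | nil => simp
  | cons a l ih =>
    have h1 := ih (fun a ha => h a (List.mem_cons_of_mem _ ha))
    have h2 := h a (by simp)
    have h3 := sz_append (f a) (l.flatMap f)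
    simp only [List.flatMap_cons, List.length_cons]
    nlinarith

section

variable {α : Type} [TEnc α]

theorem poly_take1 {β : Type} [TEnc β] {l : α → List β} (hl : Poly l) :
    Poly (fun a => (l a).take 1) :=
  (Poly.optCases (o := fun a => (l a).head?) (g := fun _ => ([] : List β)) (h := fun _ b => [b])
    (Poly.head? hl) (NPC.Poly.const _) (Poly.cons (Poly.snd Poly.id) (NPC.Poly.const []))).congr
    fun a => by cases l a <;> simp

theorem poly_stepV {E : α → Edges} {R : α → List ℕ} (hE : Poly E) (hR : Poly R) :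
    Poly (fun a => stepV (E a) (R a)) := by
  refine NPC.Poly.map (l := fun a => (E a).filter fun e => decide (e.1 ∈ R a))
    (F := fun _ e => e.2.2) ?_ (Poly.snd (Poly.snd (Poly.snd Poly.id)))
  exact Poly.filter (p := fun a e => decide (e.1 ∈ R a)) hE
    (Poly.decide_mem (f := fun x : α × ℕ × ℕ × ℕ => x.2.1) (l := fun x => R x.1)
      (Poly.fst (Poly.snd Poly.id)) (hR.comp (Poly.fst Poly.id)))

theorem sz_stepV_le (E : Edges) (R : List ℕ) : sz (stepV E R) ≤ sz E := by
  unfold stepV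
  induction E with
  | nil => simp
  | cons e E ih =>
    obtain ⟨u, a, v⟩ := e
    rw [List.filter_cons]
    split_ifs
    · simp only [List.map_cons, sz_list_cons, sz_pair]
      omega
    · simp only [sz_list_cons]
      omega

theorem poly_acyc {E : α → Edges} (hE : Poly E) : Poly (fun a => acyc (E a)) := by
  obtain ⟨r, hr⟩ := hE.sz_le
  refine Poly.isEmpty (l := fun a => (stepV (E a))^[(E a).length]
    (stepV (E a) ((E a).map fun e => e.1))) ?_
  refine Poly.iterLen (l := E) (F := fun a R => stepV (E a) R) hE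
    (poly_stepV hE (NPC.Poly.map (F := fun _ e => e.1) hE (Poly.fst (Poly.snd Poly.id))))
    (poly_stepV (hE.comp (Poly.fst Poly.id)) (Poly.snd Poly.id)) r fun a k _ => ?_
  have : (stepV (E a))^[k] (stepV (E a) ((E a).map fun e => e.1)) =
      stepV (E a) ((stepV (E a))^[k] ((E a).map fun e => e.1)) := by
    rw [← Function.iterate_succ_apply, Function.iterate_succ_apply']
  change sz ((stepV (E a))^[k] _) ≤ _
  rw [this]
  exact (sz_stepV_le _ _).trans (hr a)

theorem poly_stepW {E : α → Edges} {R : α → List (ℕ × List ℕ)} (hE : Poly E) (hR : Poly R) :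
    Poly (fun a => stepW (E a) (R a)) := by
  refine Poly.flatMap (F := fun a e => ((R a).filter fun p => decide (p.1 = e.1)).take 1 |>.map
    fun p => (e.2.2, p.2 ++ [e.2.1])) hE ?_
  refine NPC.Poly.map (l := fun x : α × ℕ × ℕ × ℕ => ((R x.1).filter
      fun p => decide (p.1 = x.2.1)).take 1)
    (F := fun x p => (x.2.2.2, p.2 ++ [x.2.2.1])) ?_ ?_
  · refine poly_take1 ?_
    exact Poly.filter (l := fun x : α × ℕ × ℕ × ℕ => R x.1) (p := fun x p => decide (p.1 = x.2.1))
      (hR.comp (Poly.fst Poly.id)) (Poly.decide_eq (Poly.fst (Poly.snd Poly.id))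
        (Poly.fst (Poly.snd (Poly.fst Poly.id))))
  · refine Poly.pair (Poly.snd (Poly.snd (Poly.snd (Poly.fst Poly.id)))) ?_
    exact Poly.append (Poly.snd (Poly.snd Poly.id))
      (Poly.cons (Poly.fst (Poly.snd (Poly.snd (Poly.fst Poly.id)))) (NPC.Poly.const []))

theorem stepW_words {E : Edges} {R : List (ℕ × List ℕ)} {W : ℕ} (h : ∀ p ∈ R, sz p.2 ≤ W) :
    ∀ p ∈ stepW E R, sz p.2 ≤ W + sz E := by
  intro p hp
  simp only [stepW, List.mem_flatMap, List.mem_map] at hp
  obtain ⟨⟨u, a, v⟩, he, q, hq, rfl⟩ := hp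
  have hq' := h q (List.mem_of_mem_filter (List.mem_of_mem_take hq))
  have h1 := sz_le_of_mem he
  have h2 := sz_append q.2 [a]
  simp only [sz_pair, sz_list_cons, sz_list_nil] at h1 h2 ⊢
  omega

theorem sz_stepW_le {E : Edges} {R : List (ℕ × List ℕ)} {W : ℕ} (h : ∀ p ∈ R, sz p.2 ≤ W) :
    sz (stepW E R) ≤ E.length * (sz E + W + 3) + 1 := by
  refine sz_flatMap_le _ _ _ fun e he => ?_
  obtain ⟨u, a, v⟩ := e
  rcases hR : (R.filter fun p => decide (p.1 = u)) with _ | ⟨q, t⟩
  · simp [hR]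
  · have hq : q ∈ R := List.mem_of_mem_filter (by rw [hR]; simp)
    have hq' := h q hq
    have h1 := sz_le_of_mem he
    have h2 := sz_append q.2 [a]
    simp only [hR, sz_pair, sz_list_cons, sz_list_nil, List.take_succ_cons, List.take_zero,
      List.map_cons, List.map_nil] at h1 h2 ⊢
    omega

theorem iterW_words (E : Edges) (s : ℕ) (k : ℕ) :
    ∀ p ∈ (stepW E)^[k] [(s, [])], sz p.2 ≤ 1 + k * sz E := by
  induction k with
  | zero =>
    intro p hp
    simp only [Function.iterate_zero, id_eq, List.mem_singleton] at hp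
    subst hp
    simp
  | succ k ih =>
    rw [Function.iterate_succ_apply']
    intro p hp
    have := stepW_words ih p hp
    rw [Nat.add_mul]
    omega

theorem sz_iterW_le (E : Edges) (s : ℕ) (k : ℕ) :
    sz ((stepW E)^[k] [(s, [])]) ≤ E.length * (sz E + (1 + k * sz E) + 3) + sz s + 5 := by
  cases k with
  | zero => simp; omega
  | succ k =>
    rw [Function.iterate_succ_apply']
    have h1 := sz_stepW_le (E := E) (iterW_words E s k)
    have h2 : E.length * (sz E + (1 + k * sz E) + 3) ≤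
        E.length * (sz E + (1 + (k + 1) * sz E) + 3) := by
      apply Nat.mul_le_mul_left
      have : k * sz E ≤ (k + 1) * sz E := Nat.mul_le_mul_right _ (by omega)
      omega
    omega

/-- A polynomial bound. -/
theorem sz_iterW_le' (E : Edges) (s : ℕ) (k N : ℕ) (h1 : E.length ≤ N) (h2 : sz E ≤ N) (h3 : k ≤ N)
    (h4 : sz s ≤ N) : sz ((stepW E)^[k] [(s, [])]) ≤ N * (N + (1 + N * N) + 3) + N + 5 := by
  refine (sz_iterW_le E s k).trans ?_
  have h5 : E.length * (sz E + (1 + k * sz E) + 3) ≤ N * (N + (1 + N * N) + 3) := by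
    apply Nat.mul_le_mul h1
    have := Nat.mul_le_mul h3 h2
    omega
  omega

theorem poly_iterW {β : Type} [TEnc β] {E : α → Edges} {s : α → ℕ} {l : α → List β}
    (hE : Poly E) (hs : Poly s) (hl : Poly l) :
    Poly (fun a => (stepW (E a))^[(l a).length] [(s a, [])]) := by
  obtain ⟨r1, hr1⟩ := hE.sz_le
  obtain ⟨r2, hr2⟩ := hs.sz_le
  obtain ⟨r3, hr3⟩ := hl.sz_le
  refine Poly.iterLen (l := l) (F := fun a R => stepW (E a) R) hl
    (Poly.cons (Poly.pair hs (NPC.Poly.const ([] : List ℕ))) (NPC.Poly.const []))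
    (poly_stepW (hE.comp (Poly.fst Poly.id)) (Poly.snd Poly.id))
    ((r1 + r2 + r3) * ((r1 + r2 + r3) + (1 + (r1 + r2 + r3) * (r1 + r2 + r3)) + 3) +
      (r1 + r2 + r3) + 5) fun a k hk => ?_
  have e1 : ((r1 + r2 + r3) * ((r1 + r2 + r3) + (1 + (r1 + r2 + r3) * (r1 + r2 + r3)) + 3) +
      (r1 + r2 + r3) + 5 : Polynomial ℕ).eval (sz a) =
      ((r1.eval (sz a) + r2.eval (sz a) + r3.eval (sz a)) * ((r1.eval (sz a) + r2.eval (sz a) +
        r3.eval (sz a)) + (1 + (r1.eval (sz a) + r2.eval (sz a) + r3.eval (sz a)) *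
        (r1.eval (sz a) + r2.eval (sz a) + r3.eval (sz a))) + 3) +
      (r1.eval (sz a) + r2.eval (sz a) + r3.eval (sz a)) + 5) := by
    simp [Polynomial.eval_add, Polynomial.eval_mul]
  rw [e1]
  have := hr1 a
  have := hr2 a
  have := hr3 a
  have := length_lt_sz (E a)
  have := length_lt_sz (l a)
  exact sz_iterW_le' _ _ _ _ (by omega) (by omega) (by omega) (by omega)

theorem poly_allW {E : α → Edges} {s : α → ℕ} (hE : Poly E) (hs : Poly s) :
    Poly (fun a => allW (E a) (s a) (E a).length) := by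
  obtain ⟨r1, hr1⟩ := hE.sz_le
  obtain ⟨r2, hr2⟩ := hs.sz_le
  set Q : Polynomial ℕ := (r1 + r2) * ((r1 + r2) + (1 + (r1 + r2) * (r1 + r2)) + 3) +
      (r1 + r2) + 5 with hQ
  refine Poly.snd (β := List (ℕ × List ℕ)) (Poly.iterLen (l := E)
    (F := fun a (p : List (ℕ × List ℕ) × List (ℕ × List ℕ)) =>
      (stepW (E a) p.1, p.2 ++ stepW (E a) p.1)) hE
    (Poly.pair (Poly.cons (Poly.pair hs (NPC.Poly.const ([] : List ℕ))) (NPC.Poly.const []))
      (Poly.cons (Poly.pair hs (NPC.Poly.const ([] : List ℕ))) (NPC.Poly.const [])))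
    (Poly.pair (poly_stepW (hE.comp (Poly.fst Poly.id)) (Poly.fst (Poly.snd Poly.id)))
      (Poly.append (Poly.snd (Poly.snd Poly.id))
        (poly_stepW (hE.comp (Poly.fst Poly.id)) (Poly.fst (Poly.snd Poly.id)))))
    (Q + (r2 + 5 + r1 * Q) + 1) fun a k hk => ?_)
  have hb : ∀ k ≤ (E a).length, sz ((stepW (E a))^[k] [(s a, [])]) ≤ Q.eval (sz a) := by
    intro k hk
    have e1 : Q.eval (sz a) =
      ((r1.eval (sz a) + r2.eval (sz a)) * ((r1.eval (sz a) + r2.eval (sz a)) +
        (1 + (r1.eval (sz a) + r2.eval (sz a)) * (r1.eval (sz a) + r2.eval (sz a))) + 3) +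
        (r1.eval (sz a) + r2.eval (sz a)) + 5) := by
      simp [hQ, Polynomial.eval_add, Polynomial.eval_mul]
    rw [e1]
    have := hr1 a
    have := hr2 a
    have := length_lt_sz (E a)
    exact sz_iterW_le' _ _ _ _ (by omega) (by omega) (by omega) (by omega)
  have key : ∀ k ≤ (E a).length,
      ((fun p : List (ℕ × List ℕ) × List (ℕ × List ℕ) =>
        (stepW (E a) p.1, p.2 ++ stepW (E a) p.1))^[k] ([(s a, [])], [(s a, [])])).1 =
          (stepW (E a))^[k] [(s a, [])] ∧
      sz ((fun p : List (ℕ × List ℕ) × List (ℕ × List ℕ) =>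
        (stepW (E a) p.1, p.2 ++ stepW (E a) p.1))^[k] ([(s a, [])], [(s a, [])])).2 ≤
          sz (s a) + 5 + k * Q.eval (sz a) := by
    intro k
    induction k with
    | zero => intro _; simp
    | succ k ih =>
      intro hk
      obtain ⟨h1, h2⟩ := ih (by omega)
      rw [Function.iterate_succ_apply']
      refine ⟨by simp only; rw [h1, Function.iterate_succ_apply'], ?_⟩
      simp only
      have h3 := sz_append ((fun p : List (ℕ × List ℕ) × List (ℕ × List ℕ) =>
        (stepW (E a) p.1, p.2 ++ stepW (E a) p.1))^[k] ([(s a, [])], [(s a, [])])).2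
        (stepW (E a) ((fun p : List (ℕ × List ℕ) × List (ℕ × List ℕ) =>
        (stepW (E a) p.1, p.2 ++ stepW (E a) p.1))^[k] ([(s a, [])], [(s a, [])])).1)
      have h4 := hb (k + 1) hk
      rw [Function.iterate_succ_apply'] at h4
      rw [h1] at h3 ⊢
      have h5 : (k + 1) * Q.eval (sz a) = k * Q.eval (sz a) + Q.eval (sz a) := by ring
      omega
  obtain ⟨h1, h2⟩ := key k hk
  have h3 := hb k hk
  have h4 : sz ((fun p : List (ℕ × List ℕ) × List (ℕ × List ℕ) =>
        (stepW (E a) p.1, p.2 ++ stepW (E a) p.1))^[k] ([(s a, [])], [(s a, [])])) =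
      sz ((fun p : List (ℕ × List ℕ) × List (ℕ × List ℕ) =>
        (stepW (E a) p.1, p.2 ++ stepW (E a) p.1))^[k] ([(s a, [])], [(s a, [])])).1 +
      sz ((fun p : List (ℕ × List ℕ) × List (ℕ × List ℕ) =>
        (stepW (E a) p.1, p.2 ++ stepW (E a) p.1))^[k] ([(s a, [])], [(s a, [])])).2 + 1 :=
    sz_pair _ _
  change sz ((fun p : List (ℕ × List ℕ) × List (ℕ × List ℕ) =>
        (stepW (E a) p.1, p.2 ++ stepW (E a) p.1))^[k] ([(s a, [])], [(s a, [])])) ≤ _
  rw [h4, h1]
  have h5 : k * Q.eval (sz a) ≤ r1.eval (sz a) * Q.eval (sz a) := by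
    apply Nat.mul_le_mul_right
    have := length_lt_sz (E a)
    have := hr1 a
    omega
  have h6 := hr2 a
  simp only [Polynomial.eval_add, Polynomial.eval_mul, Polynomial.eval_one,
    Polynomial.eval_ofNat]
  omega

theorem poly_stepD {E : α → Edges} {c : α → ℕ} {R : α → List (ℕ × Bool)} (hE : Poly E)
    (hc : Poly c) (hR : Poly R) : Poly (fun a => stepD (E a) (c a) (R a)) := by
  refine Poly.flatMap (F := fun a (e : ℕ × ℕ × ℕ) =>
    (if (e.1, false) ∈ R a then [(e.2.2, decide (e.2.1 ≠ c a))] else []) ++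
    (if (e.1, true) ∈ R a then [(e.2.2, true)] else [])) hE ?_
  have h1 : Poly (fun x : α × ℕ × ℕ × ℕ => x.2.1) := Poly.fst (Poly.snd Poly.id)
  have h2 : Poly (fun x : α × ℕ × ℕ × ℕ => x.2.2.1) := Poly.fst (Poly.snd (Poly.snd Poly.id))
  have h3 : Poly (fun x : α × ℕ × ℕ × ℕ => x.2.2.2) := Poly.snd (Poly.snd (Poly.snd Poly.id))
  have h4 : Poly (fun x : α × ℕ × ℕ × ℕ => R x.1) := hR.comp (Poly.fst Poly.id)
  have h5 : Poly (fun x : α × ℕ × ℕ × ℕ => c x.1) := hc.comp (Poly.fst Poly.id)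
  refine Poly.append ?_ ?_
  · exact Poly.ite (p := fun x : α × ℕ × ℕ × ℕ => (x.2.1, false) ∈ R x.1)
      ((Poly.decide_mem (Poly.pair h1 (NPC.Poly.const false)) h4).congr
        fun _ => decide_eq_decide.2 Iff.rfl)
      (Poly.cons (Poly.pair h3 (Poly.decide_not (p := fun x : α × ℕ × ℕ × ℕ => x.2.2.1 = c x.1)
        (Poly.decide_eq h2 h5))) (NPC.Poly.const [])) (NPC.Poly.const [])
  · exact Poly.ite (p := fun x : α × ℕ × ℕ × ℕ => (x.2.1, true) ∈ R x.1)
      ((Poly.decide_mem (Poly.pair h1 (NPC.Poly.const true)) h4).congr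
        fun _ => decide_eq_decide.2 Iff.rfl)
      (Poly.cons (Poly.pair h3 (NPC.Poly.const true)) (NPC.Poly.const [])) (NPC.Poly.const [])

theorem sz_stepD_le (E : Edges) (c : ℕ) (R : List (ℕ × Bool)) :
    sz (stepD E c R) ≤ E.length * (2 * (sz E + 6)) + 1 := by
  refine sz_flatMap_le _ _ _ fun e he => ?_
  obtain ⟨u, a, v⟩ := e
  have h1 := sz_le_of_mem he
  have h2 := sz_append (if (u, false) ∈ R then [(v, decide (a ≠ c))] else [])
    (if (u, true) ∈ R then [(v, true)] else [])
  have h3 : sz (if (u, false) ∈ R then [(v, decide (a ≠ c))] else []) ≤ sz v + 6 := by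
    have := sz_bool_le (decide (a ≠ c))
    split_ifs
    · simp only [sz_list_cons, sz_pair, sz_list_nil]; omega
    · simp only [sz_list_nil]; omega
  have h4 : sz (if (u, true) ∈ R then [(v, true)] else []) ≤ sz v + 6 := by
    split_ifs
    · simp only [sz_list_cons, sz_pair, sz_list_nil, sz_true]; omega
    · simp only [sz_list_nil]; omega
  simp only [sz_pair] at h1 ⊢
  omega

theorem poly_diff {E : α → Edges} {s v : α → ℕ} {x : α → List ℕ} (hE : Poly E) (hs : Poly s)
    (hv : Poly v) (hx : Poly x) : Poly (fun a => diff (E a) (s a) (v a) (x a)) := by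
  obtain ⟨r1, hr1⟩ := hE.sz_le
  obtain ⟨r2, hr2⟩ := hs.sz_le
  refine (Poly.decide_mem (f := fun a => (v a, true))
    (l := fun a => (x a).foldl (fun R c => stepD (E a) c R) [(s a, false)])
    (Poly.pair hv (NPC.Poly.const true)) ?_).congr fun a => decide_eq_decide.2 Iff.rfl
  refine Poly.foldl (F := fun a R c => stepD (E a) c R) hx
    (Poly.cons (Poly.pair hs (NPC.Poly.const false)) (NPC.Poly.const []))
    (poly_stepD (hE.comp (Poly.fst Poly.id)) (Poly.snd (Poly.snd Poly.id))
      (Poly.fst (Poly.snd Poly.id))) (r1 * (2 * (r1 + 6)) + r2 + 5) fun a k _ => ?_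
  have key : ∀ y : List ℕ, sz (y.foldl (fun R c => stepD (E a) c R) [(s a, false)]) ≤
      (E a).length * (2 * (sz (E a) + 6)) + sz (s a) + 5 := by
    intro y
    induction y using List.reverseRecOn with
    | nil => simp; omega
    | append_singleton y c _ =>
      rw [List.foldl_append, List.foldl_cons, List.foldl_nil]
      have := sz_stepD_le (E a) c (y.foldl (fun R c => stepD (E a) c R) [(s a, false)])
      omega
  refine (key _).trans ?_
  have h1 := hr1 a
  have h2 := hr2 a
  have h3 := length_lt_sz (E a)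
  have h4 : (E a).length * (2 * (sz (E a) + 6)) ≤ r1.eval (sz a) * (2 * (r1.eval (sz a) + 6)) :=
    Nat.mul_le_mul (by omega) (by omega)
  simp only [Polynomial.eval_add, Polynomial.eval_mul, Polynomial.eval_ofNat]
  omega

theorem poly_toBits {x : α → List ℕ} (hx : Poly x) : Poly (fun a => toBits (x a)) :=
  NPC.Poly.map (F := fun _ a => decide (a = 1)) hx (Poly.decide_eq (Poly.snd Poly.id) (NPC.Poly.const 1))

theorem poly_test {V : List Bool → List Bool} (hV : Poly V) : Poly (test V) := by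
  have hE : Poly (fun I : Inst => I.1) := Poly.fst Poly.id
  refine Poly.and ?_ (Poly.and (poly_acyc hE) ?_)
  · exact Poly.all (p := fun _ e => decide (e.2.1 < 2)) hE
      (Poly.decide_lt (Poly.fst (Poly.snd (Poly.snd Poly.id))) (NPC.Poly.const 2))
  · refine Poly.any (l := fun I : Inst => allW I.1 I.2.1 I.1.length)
      (p := fun I p => test1 V I.1 I.2.1 I.2.2 p.1 p.2)
      (poly_allW hE (Poly.fst (Poly.snd Poly.id))) ?_
    have gE : Poly (fun q : Inst × ℕ × List ℕ => q.1.1) := Poly.fst (Poly.fst Poly.id)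
    have gs : Poly (fun q : Inst × ℕ × List ℕ => q.1.2.1) :=
      Poly.fst (Poly.snd (Poly.fst Poly.id))
    have gt : Poly (fun q : Inst × ℕ × List ℕ => q.1.2.2) :=
      Poly.snd (Poly.snd (Poly.fst Poly.id))
    have gv : Poly (fun q : Inst × ℕ × List ℕ => q.2.1) := Poly.fst (Poly.snd Poly.id)
    have gx : Poly (fun q : Inst × ℕ × List ℕ => q.2.2) := Poly.snd (Poly.snd Poly.id)
    refine Poly.or (Poly.and (Poly.decide_eq gv gt) (Poly.decide_eq (Poly.mod (Poly.length gx)
      (NPC.Poly.const 2)) (NPC.Poly.const 1))) ?_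
    refine Poly.any (l := fun q : Inst × ℕ × List ℕ => (stepW q.1.1)^[q.2.2.length] [(q.2.1, [])])
      (p := fun q p => decide (p.1 = q.1.2.2) && (decide (p.2 ≠ q.2.2) ||
        (diff q.1.1 q.1.2.1 q.2.1 q.2.2 || (diff q.1.1 q.2.1 q.1.2.2 q.2.2 ||
          decide (V (toBits q.2.2) = [true])))))
      (poly_iterW gE gv gx) ?_
    have hf : Poly (fun z : (Inst × ℕ × List ℕ) × ℕ × List ℕ => z.1) := Poly.fst Poly.id
    refine Poly.and (Poly.decide_eq (Poly.fst (Poly.snd Poly.id)) (gt.comp hf)) ?_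
    refine Poly.or (Poly.decide_not (p := fun z : (Inst × ℕ × List ℕ) × ℕ × List ℕ =>
      z.2.2 = z.1.2.2) (Poly.decide_eq (Poly.snd (Poly.snd Poly.id)) (gx.comp hf))) ?_
    refine Poly.or (poly_diff (gE.comp hf) (gs.comp hf) (gv.comp hf) (gx.comp hf)) ?_
    refine Poly.or (poly_diff (gE.comp hf) (gv.comp hf) (gt.comp hf) (gx.comp hf)) ?_
    exact Poly.decide_eq (hV.comp (poly_toBits (gx.comp hf))) (NPC.Poly.const [true])

theorem dagReach_sqLang {A : Set (List Bool)} (hA : InP A) : DagReachInP (sqLang A) := by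
  obtain ⟨V, hV, hV'⟩ := hA
  exact inPP_of (poly_test (H622R2.poly_of_polyTime hV)) (test_iff A V hV')

end

end Pool.Agent.H877R3.DR
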