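import Pool.Agent.H877R3.DR.NCDefs

/-!
# `NC^k` is closed under the reduction `x ↦ xx`
-/

set_option autoImplicit false

namespace Pool.Agent.H877R3.DR

open Function (update)

/-- The header of the new circuit: copies of the inputs. -/
def header (n : ℕ) : List Gate := (List.range n).map fun j => Gate.and j j

/-- The circuit for inputs `x` obtained from the circuit for inputs `xx`. -/
def dbl (C : ℕ → List Gate) (n : ℕ) : List Gate := header n ++ C (2 * n)

theorem header_vals (x : List Bool) (k : ℕ) (hk : k ≤ x.length) :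
    nodeVals ((List.range k).map fun j => Gate.and j j) x = x ++ x.take k := by
  induction k with
  | zero => simp [nodeVals]
  | succ k ih =>
    have ih' := ih (by omega)
    unfold nodeVals at ih' ⊢
    rw [List.range_succ, List.map_append, List.foldl_append, ih']
    simp only [List.map_cons, List.map_nil, List.foldl_cons, List.foldl_nil, Gate.val,
      Bool.and_self, List.append_assoc]
    congr 1
    rw [List.getD_append _ _ _ _ (by omega), List.take_succ_eq_append_getElem (by omega),
      List.getD_eq_getElem _ _ (by omega)]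

theorem dbl_vals (C : ℕ → List Gate) (x : List Bool) :
    nodeVals (dbl C x.length) x = nodeVals (C (2 * x.length)) (x ++ x) := by
  unfold dbl
  have h : nodeVals (header x.length ++ C (2 * x.length)) x =
      nodeVals (C (2 * x.length)) (nodeVals (header x.length) x) := by
    unfold nodeVals; rw [List.foldl_append]
  rw [h, header, header_vals x x.length le_rfl, List.take_length]

theorem dbl_output (C : ℕ → List Gate) (x : List Bool) :
    output (dbl C x.length) x = output (C (x ++ x).length) (x ++ x) := by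
  unfold output
  rw [dbl_vals, List.length_append, two_mul]

/-- Pointwise comparison of lists of depths. -/
def LeOne (d d' : List ℕ) : Prop := d.length = d'.length ∧ ∀ i, d.getD i 0 ≤ d'.getD i 0 + 1

theorem LeOne.step {d d' : List ℕ} (h : LeOne d d') (g : Gate) :
    LeOne (d ++ [g.dep d]) (d' ++ [g.dep d']) := by
  obtain ⟨h1, h2⟩ := h
  refine ⟨by simp [h1], fun i => ?_⟩
  have hg : g.dep d ≤ g.dep d' + 1 := by
    cases g with
    | const b => simp [Gate.dep]
    | not i => have := h2 i; simp only [Gate.dep]; omega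
    | and i j => have := h2 i; have := h2 j; simp only [Gate.dep]; omega
    | or i j => have := h2 i; have := h2 j; simp only [Gate.dep]; omega
  by_cases hi : i < d.length
  · rw [List.getD_append _ _ _ _ hi, List.getD_append _ _ _ _ (by omega)]
    exact h2 i
  · rw [List.getD_append_right _ _ _ _ (by omega), List.getD_append_right _ _ _ _ (by omega), h1]
    by_cases hi2 : i - d'.length = 0
    · rw [hi2]; simpa using hg
    · obtain ⟨m, hm⟩ := Nat.exists_eq_succ_of_ne_zero hi2
      rw [hm]; simp

theorem LeOne.foldl (C : List Gate) : ∀ {d d' : List ℕ}, LeOne d d' →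
    LeOne (C.foldl (fun d g => d ++ [g.dep d]) d) (C.foldl (fun d g => d ++ [g.dep d]) d') := by
  induction C with
  | nil => intro d d' h; exact h
  | cons g C ih => intro d d' h; exact ih (h.step g)

theorem header_deps (n k : ℕ) (hk : k ≤ n) :
    nodeDeps ((List.range k).map fun j => Gate.and j j) n =
      List.replicate n 0 ++ List.replicate k 1 := by
  induction k with
  | zero => simp [nodeDeps]
  | succ k ih =>
    have ih' := ih (by omega)
    unfold nodeDeps at ih' ⊢
    rw [List.range_succ, List.map_append, List.foldl_append, ih']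
    simp only [List.map_cons, List.map_nil, List.foldl_cons, List.foldl_nil, Gate.dep, max_self]
    rw [List.getD_append _ _ _ _ (by simpa using hk), List.append_assoc, List.replicate_succ',
      List.getD_eq_getElem _ _ (by simpa using hk)]
    simp

theorem dbl_deps (C : ℕ → List Gate) (n : ℕ) :
    LeOne (nodeDeps (dbl C n) n) (nodeDeps (C (2 * n)) (2 * n)) := by
  have h : nodeDeps (dbl C n) n =
      (C (2 * n)).foldl (fun d g => d ++ [g.dep d]) (nodeDeps (header n) n) := by
    unfold nodeDeps dbl; rw [List.foldl_append]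
  rw [h, header, header_deps n n le_rfl]
  apply LeOne.foldl
  refine ⟨by simp [two_mul], fun i => ?_⟩
  have h1 : ∀ e ∈ (List.replicate n 0 ++ List.replicate n 1 : List ℕ), e ≤ 1 := by
    intro e he
    rw [List.mem_append] at he
    rcases he with he | he
    · rw [List.eq_of_mem_replicate he]; omega
    · rw [List.eq_of_mem_replicate he]
  by_cases hi : i < (List.replicate n 0 ++ List.replicate n 1 : List ℕ).length
  · rw [List.getD_eq_getElem _ _ hi]
    have := h1 _ (List.getElem_mem hi)
    omega
  · rw [List.getD_eq_default _ _ (by omega)]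
    omega

theorem depthLE_dbl (C : ℕ → List Gate) (n d : ℕ) (h : DepthLE (C (2 * n)) (2 * n) d) :
    DepthLE (dbl C n) n (d + 1) := by
  intro e he
  obtain ⟨h1, h2⟩ := dbl_deps C n
  obtain ⟨i, hi, rfl⟩ := List.getElem_of_mem he
  have h3 := h2 i
  rw [List.getD_eq_getElem _ _ hi, List.getD_eq_getElem _ _ (by omega)] at h3
  have h4 := h _ (List.getElem_mem (l := nodeDeps (C (2 * n)) (2 * n)) (n := i) (by omega))
  omega

/-! ## The program -/

theorem Run.mono {B B' : ℕ} (hB : B ≤ B') {p σ τ o} (h : Run B p σ τ o) : Run B' p σ τ o := by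
  induction h with
  | zero σ r => exact Run.zero σ r
  | inc σ r h => exact Run.inc σ r (h.trans hB)
  | dec σ r => exact Run.dec σ r
  | emit σ b => exact Run.emit σ b
  | seq _ _ ih1 ih2 => exact Run.seq ih1 ih2
  | loopDone h => exact Run.loopDone h
  | loopStep h _ _ ih1 ih2 => exact Run.loopStep h ih1 ih2

theorem Run.conv {B : ℕ} {p σ τ o σ' τ' o'} (h : Run B p σ τ o) (h1 : σ = σ') (h2 : τ = τ')
    (h3 : o = o') : Run B p σ' τ' o' := by subst h1 h2 h3; exact h

/-- Contents of the registers `0, 1, 2`. -/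
def st3 (a b c : ℕ) : ℕ → ℕ := fun r => if r = 0 then a else if r = 1 then b else
  if r = 2 then c else 0

theorem start_eq (n : ℕ) : start n = st3 n 0 0 := by
  funext r
  unfold start st3
  split_ifs <;> rfl

theorem upd0 (a b c v : ℕ) : update (st3 a b c) 0 v = st3 v b c := by
  funext r
  by_cases h : r = 0
  · subst h; simp [st3]
  · rw [Function.update_of_ne h]; simp [st3, h]

theorem upd1 (a b c v : ℕ) : update (st3 a b c) 1 v = st3 a v c := by
  funext r
  by_cases h : r = 1
  · subst h; simp [st3]
  · rw [Function.update_of_ne h]; simp [st3, h]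

theorem upd2 (a b c v : ℕ) : update (st3 a b c) 2 v = st3 a b v := by
  funext r
  by_cases h : r = 2
  · subst h; simp [st3]
  · rw [Function.update_of_ne h]; simp [st3, h]

theorem st3_0 (a b c : ℕ) : st3 a b c 0 = a := rfl
theorem st3_1 (a b c : ℕ) : st3 a b c 1 = b := rfl
theorem st3_2 (a b c : ℕ) : st3 a b c 2 = c := rfl
theorem st3_3 (a b c : ℕ) : st3 a b c 3 = 0 := rfl

/-- Write register `1` in unary. -/
def wr1 : Prog :=
  Prog.seq (Prog.zero 2) (Prog.seq (Prog.loop 2 1 (Prog.seq (Prog.emit true) (Prog.inc 2)))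
    (Prog.emit false))

theorem wr1_loop (B a b : ℕ) (hB : b ≤ B) : ∀ m c, b = c + m →
    Run B (Prog.loop 2 1 (Prog.seq (Prog.emit true) (Prog.inc 2))) (st3 a b c) (st3 a b b)
      (List.replicate m true) := by
  intro m
  induction m with
  | zero =>
    intro c hc
    have : b = c := hc
    subst this
    exact Run.loopDone rfl
  | succ m ih =>
    intro c hc
    have h1 : Run B (Prog.seq (Prog.emit true) (Prog.inc 2)) (st3 a b c) (st3 a b (c + 1))
        [true] := by
      refine (Run.seq (Run.emit _ _) (Run.inc _ 2 ?_)).conv rfl ?_ rfl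
      · rw [st3_2]; omega
      · rw [upd2, st3_2]
    exact (Run.loopStep (by rw [st3_2, st3_1]; omega) h1 (ih (c + 1) (by omega))).conv rfl rfl
      (by simp [List.replicate_succ])

theorem wr1_run (B a b c : ℕ) (hB : b ≤ B) :
    Run B wr1 (st3 a b c) (st3 a b b) (unary b) := by
  refine (Run.seq (Run.zero _ 2) (Run.seq ((wr1_loop B a b hB b 0 (by omega)).conv
    (upd2 a b c 0).symm rfl rfl) (Run.emit _ _))).conv rfl rfl ?_
  simp [unary]

/-- One gate of the header. -/
def hgate : Prog :=
  Prog.seq (Prog.emit true) (Prog.seq (Prog.emit false) (Prog.seq wr1 (Prog.seq wr1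
    (Prog.inc 1))))

theorem hgate_run (B a b c : ℕ) (hB : b + 1 ≤ B) :
    Run B hgate (st3 a b c) (st3 a (b + 1) b) (Gate.and b b).desc := by
  refine (Run.seq (Run.emit _ _) (Run.seq (Run.emit _ _) (Run.seq (wr1_run B a b c (by omega))
    (Run.seq (wr1_run B a b b (by omega)) (Run.inc _ 1 ?_))))).conv rfl ?_ ?_
  · rw [st3_1]; exact hB
  · rw [upd1, st3_1]
  · simp [Gate.desc]

theorem header_loop (B a : ℕ) (hB : a ≤ B) : ∀ m b c, a = b + m →
    ∃ c', Run B (Prog.loop 1 0 hgate) (st3 a b c) (st3 a a c')
      (((List.range' b m).map fun j => Gate.and j j).flatMap Gate.desc) := by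
  intro m
  induction m with
  | zero =>
    intro b c hb
    have : a = b := hb
    subst this
    exact ⟨c, Run.loopDone rfl⟩
  | succ m ih =>
    intro b c hb
    obtain ⟨c', h⟩ := ih (b + 1) b (by omega)
    refine ⟨c', ?_⟩
    exact (Run.loopStep (by rw [st3_0, st3_1]; omega) (hgate_run B a b c (by omega)) h).conv rfl
      rfl (by simp [List.range'_succ])

/-- Add register 1 to register 0. -/
def addp : Prog := Prog.loop 1 3 (Prog.seq (Prog.inc 0) (Prog.dec 1))

theorem addp_run (B c : ℕ) : ∀ b a, a + b ≤ B → Run B addp (st3 a b c) (st3 (a + b) 0 c) [] := by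
  intro b
  induction b with
  | zero => intro a _; exact Run.loopDone rfl
  | succ b ih =>
    intro a ha
    have h1 : Run B (Prog.seq (Prog.inc 0) (Prog.dec 1)) (st3 a (b + 1) c) (st3 (a + 1) b c)
        [] := by
      refine (Run.seq (Run.inc _ 0 ?_) (Run.dec _ 1)).conv rfl ?_ rfl
      · rw [st3_0]; omega
      · rw [upd0, upd1, st3_0, st3_1]; rfl
    exact (Run.loopStep (by rw [st3_1, st3_3]; omega) h1 (ih (a + 1) (by omega))).conv rfl
      (by congr 1; omega) rfl

/-- Write the header and double the input. -/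
def hprog : Prog := Prog.seq (Prog.loop 1 0 hgate) (Prog.seq addp (Prog.zero 2))

theorem hprog_run (B n : ℕ) (hB : 2 * n ≤ B) :
    Run B hprog (start n) (start (2 * n)) (desc (header n)) := by
  obtain ⟨c', h⟩ := header_loop B n (by omega) n 0 0 (by omega)
  refine (Run.seq h (Run.seq (addp_run B c' n n (by omega)) (Run.zero _ 2))).conv
    (start_eq n).symm ?_ ?_
  · rw [upd2, start_eq, two_mul]
  · simp [desc, header, List.range_eq_range']

theorem logSpace_dbl (C : ℕ → List Gate) (h : LogSpace (fun n => desc (C n))) :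
    LogSpace (fun n => desc (dbl C n)) := by
  obtain ⟨p, b, hb⟩ := h
  refine ⟨Prog.seq hprog p, Polynomial.C 2 * Polynomial.X + b.comp (Polynomial.C 2 * Polynomial.X),
    fun n => ?_⟩
  obtain ⟨τ, hτ⟩ := hb (2 * n)
  refine ⟨τ, ?_⟩
  have e1 : (Polynomial.C 2 * Polynomial.X + b.comp (Polynomial.C 2 * Polynomial.X) :
      Polynomial ℕ).eval n = 2 * n + b.eval (2 * n) := by simp
  rw [e1]
  refine (Run.seq (hprog_run _ n (by omega)) (hτ.mono (by omega))).conv rfl rfl ?_
  simp [desc, dbl]

theorem log_bound (c k l : ℕ) :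
    c * (l + 1) ^ k + c + 1 ≤ (c * 2 ^ k + 2 * c + 1) * l ^ k + (c * 2 ^ k + 2 * c + 1) := by
  have h1 : (l + 1) ^ k ≤ 2 ^ k * l ^ k + 1 := by
    rcases Nat.eq_zero_or_pos l with rfl | hl
    · simp
    · calc (l + 1) ^ k ≤ (2 * l) ^ k := Nat.pow_le_pow_left (by omega) k
        _ = 2 ^ k * l ^ k := Nat.mul_pow _ _ _
        _ ≤ _ := Nat.le_succ _
  have h2 : c * (l + 1) ^ k ≤ c * (2 ^ k * l ^ k + 1) := Nat.mul_le_mul_left c h1
  have h3 : c * (2 ^ k * l ^ k + 1) = (c * 2 ^ k) * l ^ k + c := by ring
  have h4 : (c * 2 ^ k) * l ^ k ≤ (c * 2 ^ k + 2 * c + 1) * l ^ k :=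
    Nat.mul_le_mul_right _ (by omega)
  omega

theorem InNCk.of_double {k : ℕ} {L A : Set (List Bool)} (h : InNCk k L)
    (hA : ∀ x : List Bool, x ∈ A ↔ x ++ x ∈ L) : InNCk k A := by
  obtain ⟨C, h1, ⟨s, h2⟩, ⟨c, h3⟩, h4⟩ := h
  refine ⟨dbl C, logSpace_dbl C h1, ⟨Polynomial.X + s.comp (Polynomial.C 2 * Polynomial.X),
    fun n => ?_⟩, ⟨c * 2 ^ k + 2 * c + 1, fun n => ?_⟩, fun x => ?_⟩
  · have := h2 (2 * n)
    simp only [dbl, header, List.length_append, List.length_map, List.length_range,
      Polynomial.eval_add, Polynomial.eval_X, Polynomial.eval_comp, Polynomial.eval_mul,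
      Polynomial.eval_C]
    omega
  · intro e he
    refine (depthLE_dbl C n _ (h3 (2 * n)) e he).trans ?_
    have hlog : Nat.log 2 (2 * n) ≤ Nat.log 2 n + 1 := by
      rcases Nat.eq_zero_or_pos n with rfl | hn
      · simp
      · rw [Nat.mul_comm, Nat.log_mul_base (by omega) (by omega)]
    have h5 : c * (Nat.log 2 (2 * n)) ^ k + c + 1 ≤ c * (Nat.log 2 n + 1) ^ k + c + 1 := by
      have := Nat.mul_le_mul_left c (Nat.pow_le_pow_left hlog k)
      omega
    exact h5.trans (log_bound c k _)
  · rw [dbl_output, h4, hA]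

theorem InNC.of_double {L A : Set (List Bool)} (h : InNC L)
    (hA : ∀ x : List Bool, x ∈ A ↔ x ++ x ∈ L) : InNC A := by
  obtain ⟨k, hk⟩ := h
  exact ⟨k, hk.of_double hA⟩

end Pool.Agent.H877R3.DR
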