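import Pool.Agent.H877R3.DR.AlgPoly
import Pool.Agent.H877R3.DR.NCClosure

/-!
# `DAGREACH⁻¹(P) ⊆ NC` if and only if `P ⊆ NC`
-/

set_option autoImplicit false

namespace Pool.Agent.H877R3.DR

open Pool.Agent.NPC

/-- The block length. -/
def blk (k : ℕ) : ℕ := max 1 (Nat.clog 2 k)

theorem blk_pos (k : ℕ) : 0 < blk k := lt_of_lt_of_le Nat.one_pos (le_max_left _ _)

theorem letterCode_length {k : ℕ} (a : Fin k) : (letterCode a).length = blk k := by
  simp [letterCode, blk]

theorem letterCode_injective {k : ℕ} : Function.Injective (letterCode : Fin k → List Bool) := by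
  intro a b h
  apply Fin.ext
  apply Nat.eq_of_testBit_eq
  intro i
  by_cases hi : i < blk k
  · have h1 := congrArg (fun l => l[i]?) h
    simpa [letterCode, blk, List.getElem?_map, List.getElem?_range, hi, show i < max 1
      (Nat.clog 2 k) from hi] using h1
  · have hk : k ≤ 2 ^ i := by
      calc k ≤ 2 ^ Nat.clog 2 k := Nat.le_pow_clog (by norm_num) k
        _ ≤ 2 ^ i := Nat.pow_le_pow_right (by norm_num)
          ((le_max_right 1 _).trans (Nat.le_of_not_lt hi))
    rw [Nat.testBit_lt_two_pow (lt_of_lt_of_le a.2 hk),
      Nat.testBit_lt_two_pow (lt_of_lt_of_le b.2 hk)]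

theorem flatMap_letterCode_length {k : ℕ} (w : List (Fin k)) :
    (w.flatMap letterCode).length = w.length * blk k := by
  induction w with
  | nil => simp
  | cons a w ih =>
    rw [List.flatMap_cons, List.length_append, ih, letterCode_length, List.length_cons]; ring

/-- The codes of the letters. -/
def tbl (k : ℕ) : List (ℕ × List Bool) :=
  (List.finRange k).map fun a : Fin k => ((a : ℕ), letterCode a)

/-- The string `c` occurs in `y` at position `p`. -/
def isBlk (y : List Bool) (p : ℕ) (c : List Bool) : Bool :=
  c.zipIdx.all fun q => decide (y[p + q.2]? = some q.1)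

theorem isBlk_iff_aux (y : List Bool) (p : ℕ) (c : List Bool) : ∀ n,
    ((c.zipIdx n).all fun q => decide (y[p + q.2]? = some q.1)) = true ↔
      y.drop (p + n) = c ++ y.drop (p + n + c.length) := by
  induction c with
  | nil => intro n; simp
  | cons b c ih =>
    intro n
    rw [List.zipIdx_cons, List.all_cons, Bool.and_eq_true, ih (n + 1), decide_eq_true_eq]
    have e : p + (n + 1) + c.length = p + n + (b :: c).length := by simp; ring
    rw [e]
    constructor
    · rintro ⟨h1, h2⟩
      obtain ⟨h3, h4⟩ := List.getElem?_eq_some_iff.1 h1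
      rw [List.drop_eq_getElem_cons h3, h4, List.cons_append, ← h2, Nat.add_assoc]
    · intro h
      have h3 : p + n < y.length := by
        by_contra hcon
        rw [List.drop_eq_nil_of_le (by omega)] at h
        simp at h
      rw [List.drop_eq_getElem_cons h3, List.cons_append, List.cons.injEq] at h
      refine ⟨?_, by rw [← Nat.add_assoc]; exact h.2⟩
      rw [List.getElem?_eq_getElem h3, h.1]

theorem isBlk_iff (y : List Bool) (p : ℕ) (c : List Bool) :
    isBlk y p c = true ↔ y.drop p = c ++ y.drop (p + c.length) := by
  have := isBlk_iff_aux y p c 0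
  simpa [isBlk] using this

/-- The path graph of a bit string. -/
def ofBits (k : ℕ) (y : List Bool) : Edges :=
  (List.range (y.length / blk k)).flatMap fun i =>
    ((tbl k).filter fun e => isBlk y (i * blk k) e.2).map fun e => (i, e.1, i + 1)

def toInst (k : ℕ) (y : List Bool) : Inst :=
  (ofBits k y, 0, if y.length % blk k = 0 then y.length / blk k else y.length + 1)

theorem mem_ofBits {k : ℕ} {y : List Bool} {i a v : ℕ} :
    (i, a, v) ∈ ofBits k y ↔ i < y.length / blk k ∧ v = i + 1 ∧
      ∃ a' : Fin k, a = a' ∧ isBlk y (i * blk k) (letterCode a') = true := by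
  simp only [ofBits, tbl, List.mem_flatMap, List.mem_range, List.mem_map, List.mem_filter,
    List.mem_finRange, true_and, Prod.exists, Prod.mk.injEq]
  constructor
  · rintro ⟨j, hj, b, c, ⟨⟨a', rfl, rfl⟩, h⟩, rfl, rfl, rfl⟩
    exact ⟨hj, rfl, a', rfl, h⟩
  · rintro ⟨h1, rfl, a', rfl, h⟩
    exact ⟨i, h1, a', _, ⟨⟨a', rfl, rfl⟩, h⟩, rfl, rfl, rfl⟩

theorem walk_ofBits {k : ℕ} {y : List Bool} {u v : ℕ} {l : List ℕ}
    (h : Walk (ofBits k y) u v l) : v = u + l.length ∧ (u ≤ y.length / blk k →
      v ≤ y.length / blk k) := by
  induction h with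
  | nil u => simp
  | @cons u a v w l he _ ih =>
    obtain ⟨h1, rfl, _⟩ := mem_ofBits.1 he
    obtain ⟨h2, h3⟩ := ih
    refine ⟨by rw [h2, List.length_cons]; ring, fun _ => h3 (by omega)⟩

theorem walk_iff {k : ℕ} {y : List Bool} (hy : y.length % blk k = 0) : ∀ (w : List (Fin k)) (i : ℕ),
    i ≤ y.length / blk k → (Walk (ofBits k y) i (y.length / blk k) (w.map Fin.val) ↔
      y.drop (i * blk k) = w.flatMap letterCode) := by
  have hb := blk_pos k
  have hlen : y.length / blk k * blk k = y.length := Nat.div_mul_cancel (Nat.dvd_of_mod_eq_zero hy)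
  intro w
  induction w with
  | nil =>
    intro i hi
    simp only [List.map_nil, List.flatMap_nil, List.drop_eq_nil_iff]
    constructor
    · intro h
      have := (walk_ofBits h).1
      simp only [List.length_nil, add_zero] at this
      rw [← this, hlen]
    · intro h
      have h1 : y.length / blk k ≤ i := by
        rw [← hlen] at h
        exact Nat.le_of_mul_le_mul_right h hb
      have h2 : i = y.length / blk k := le_antisymm hi h1
      rw [← h2]
      exact Walk.nil i
  | cons a w ih =>
    intro i hi
    simp only [List.map_cons, List.flatMap_cons]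
    constructor
    · intro h
      cases h with
      | cons he h =>
        obtain ⟨h1, rfl, a', ha', hbk⟩ := mem_ofBits.1 he
        have : a' = a := Fin.ext ha'.symm
        subst this
        rw [isBlk_iff, letterCode_length] at hbk
        rw [hbk, ← (ih (i + 1) (by omega)).1 h]
        congr 2
        ring
    · intro h
      have h0 := congrArg List.length h
      rw [List.length_drop, List.length_append, letterCode_length] at h0
      have h1 : i < y.length / blk k := by
        by_contra hcon
        have : i = y.length / blk k := by omega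
        rw [this, hlen] at h0
        omega
      have h2 : y.drop (i * blk k + blk k) = w.flatMap letterCode := by
        rw [← List.drop_drop, h, List.drop_left' (letterCode_length a)]
      have h3 : isBlk y (i * blk k) (letterCode a) = true := by
        rw [isBlk_iff, letterCode_length, h2, h]
      refine Walk.cons (mem_ofBits.2 ⟨h1, rfl, a, rfl, h3⟩) ((ih (i + 1) (by omega)).2 ?_)
      rw [← h2]
      congr 1
      ring

theorem mem_binary_iff {k : ℕ} (L : Set (List (Fin k))) (y : List Bool) :
    y ∈ binary L ↔ DagReach L (toInst k y) := by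
  have hlab : ∀ e ∈ ofBits k y, e.2.1 < k := by
    rintro ⟨i, a, v⟩ he
    obtain ⟨_, _, a', rfl, _⟩ := mem_ofBits.1 he
    exact a'.2
  have hac : Acyclic (ofBits k y) := by
    intro u l h
    have := (walk_ofBits h).1
    exact List.length_eq_zero_iff.1 (by omega)
  unfold DagReach toInst
  simp only
  by_cases hy : y.length % blk k = 0
  · rw [if_pos hy]
    constructor
    · rintro ⟨w, hw, hyw⟩
      refine ⟨hlab, hac, w, hw, ?_⟩
      rw [walk_iff hy w 0 (Nat.zero_le _)]
      simpa using hyw
    · rintro ⟨_, _, w, hw, hwalk⟩
      rw [walk_iff hy w 0 (Nat.zero_le _)] at hwalk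
      exact ⟨w, hw, by simpa using hwalk⟩
  · rw [if_neg hy]
    constructor
    · rintro ⟨w, hw, hyw⟩
      exfalso
      apply hy
      rw [hyw, flatMap_letterCode_length, Nat.mul_mod_left]
    · rintro ⟨_, _, w, hw, hwalk⟩
      exfalso
      have h1 := (walk_ofBits hwalk).2 (Nat.zero_le _)
      have h2 : y.length / blk k ≤ y.length := Nat.div_le_self _ _
      omega

theorem poly_toInst (k : ℕ) : Poly (toInst k) := by
  have hy : Poly (fun y : List Bool => y) := Poly.id
  have hlen : Poly (fun y : List Bool => y.length) := Poly.length hy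
  have hdiv : Poly (fun y : List Bool => y.length / blk k) := Poly.div hlen (NPC.Poly.const _)
  have hu : UPoly (fun y : List Bool => y.length / blk k) :=
    UPoly.of_le hdiv (UPoly.length hy) fun y => Nat.div_le_self _ _
  refine Poly.pair ?_ (Poly.pair (NPC.Poly.const 0) ?_)
  · refine Poly.flatMap (l := fun y : List Bool => List.range (y.length / blk k))
      (F := fun y i => ((tbl k).filter fun e => isBlk y (i * blk k) e.2).map
        fun e => (i, e.1, i + 1)) hu.range ?_
    refine NPC.Poly.map (l := fun p : List Bool × ℕ => (tbl k).filter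
        fun e => isBlk p.1 (p.2 * blk k) e.2) (F := fun p e => (p.2, e.1, p.2 + 1)) ?_ ?_
    · refine Poly.filter (l := fun _ : List Bool × ℕ => tbl k)
        (p := fun p e => isBlk p.1 (p.2 * blk k) e.2) (NPC.Poly.const _) ?_
      refine Poly.all (l := fun x : (List Bool × ℕ) × ℕ × List Bool => x.2.2.zipIdx)
        (p := fun x q => decide (x.1.1[x.1.2 * blk k + q.2]? = some q.1))
        (Poly.zipIdx (Poly.snd (Poly.snd Poly.id))) ?_
      refine Poly.decide_eq (Poly.getElem? (Poly.fst (Poly.fst (Poly.fst Poly.id)))
        (Poly.add (Poly.mul (Poly.snd (Poly.fst (Poly.fst Poly.id))) (NPC.Poly.const _))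
          (Poly.snd (Poly.snd Poly.id)))) (Poly.some (Poly.fst (Poly.snd Poly.id)))
    · exact Poly.pair (Poly.snd (Poly.fst Poly.id)) (Poly.pair (Poly.fst (Poly.snd Poly.id))
        (Poly.succ (Poly.snd (Poly.fst Poly.id))))
  · exact Poly.ite (p := fun y : List Bool => y.length % blk k = 0)
      (Poly.decide_eq (Poly.mod hlen (NPC.Poly.const _)) (NPC.Poly.const 0)) hdiv
      (Poly.succ hlen)

theorem inP_binary {k : ℕ} {L : Set (List (Fin k))} (h : DagReachInP L) : InP (binary L) := by
  refine InP.of_reduces ⟨fun y => bits (toInst k y), polyTime_bits (poly_toInst k), fun y => ?_⟩ h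
  rw [bits_mem_lang, mem_binary_iff]

/-! ### The other direction -/

/-- A bit string as a word over `{0, 1}`. -/
def ofB (x : List Bool) : List (Fin 2) := x.map fun b => if b then 1 else 0

theorem toBits_ofB (x : List Bool) : toBits ((ofB x).map Fin.val) = x := by
  unfold toBits ofB
  rw [List.map_map, List.map_map]
  conv_rhs => rw [← List.map_id x]
  apply List.map_congr_left
  intro b _
  cases b <;> simp

theorem ofB_toBits (w : List (Fin 2)) : ofB (toBits (w.map Fin.val)) = w := by
  unfold toBits ofB
  rw [List.map_map, List.map_map]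
  conv_rhs => rw [← List.map_id w]
  apply List.map_congr_left
  intro a _
  fin_cases a <;> simp

theorem flatMap_letterCode_two (w : List (Fin 2)) :
    w.flatMap letterCode = toBits (w.map Fin.val) := by
  have hb : max 1 (Nat.clog 2 2) = 1 := by
    have : Nat.clog 2 2 = 1 := by
      have := Nat.clog_pow 2 1 (by norm_num)
      simpa using this
    rw [this]; rfl
  induction w with
  | nil => rfl
  | cons a w ih =>
    rw [List.flatMap_cons, ih, letterCode, hb]
    fin_cases a <;> simp [toBits]

theorem double_mem {A : Set (List Bool)} (x : List Bool) :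
    x ∈ A ↔ x ++ x ∈ binary (sqLang A) := by
  constructor
  · intro hx
    refine ⟨ofB x ++ ofB x, fun z hz => ?_, ?_⟩
    · have h1 := congrArg List.length hz
      simp only [List.length_append] at h1
      obtain ⟨h2, _⟩ := List.append_inj hz (by omega)
      rw [← h2, toBits_ofB]
      exact hx
    · rw [flatMap_letterCode_two, List.map_append]
      have : toBits ((ofB x).map Fin.val ++ (ofB x).map Fin.val) =
          toBits ((ofB x).map Fin.val) ++ toBits ((ofB x).map Fin.val) := by
        simp [toBits]
      rw [this, toBits_ofB]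
  · rintro ⟨w, hw, hx⟩
    rw [flatMap_letterCode_two] at hx
    have h1 : w = ofB x ++ ofB x := by
      have := congrArg ofB hx
      rw [ofB_toBits] at this
      rw [← this]
      simp [ofB]
    have := hw _ h1
    rwa [toBits_ofB] at this

theorem main :
    (∀ (k : ℕ) (L : Set (List (Fin k))), DagReachInP L → InNC (binary L)) ↔
      ∀ A : Set (List Bool), InP A → InNC A := by
  constructor
  · intro h A hA
    exact (h 2 (sqLang A) (dagReach_sqLang hA)).of_double double_mem
  · intro h k L hL
    exact h _ (inP_binary hL)

end Pool.Agent.H877R3.DR
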