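import Pool.Agent.NPC.Classes

/-!
# Language-constrained reachability in labelled directed acyclic graphs
-/

set_option autoImplicit false

namespace Pool.Agent.H877R3.DR

open Pool.Agent.NPC

/-- A finite labelled digraph is given by the list of its edges `(u, a, v)`: an edge from vertex
`u` to vertex `v` with label `a`. An instance is a graph with two vertices `s`, `t`. -/
abbrev Inst : Type := List (ℕ × ℕ × ℕ) × ℕ × ℕ

/-- `Walk E u v l`: there is a directed path from `u` to `v` with yield `l`. -/
inductive Walk (E : List (ℕ × ℕ × ℕ)) : ℕ → ℕ → List ℕ → Prop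
  | nil (u : ℕ) : Walk E u u []
  | cons {u a v w : ℕ} {l : List ℕ} : (u, a, v) ∈ E → Walk E v w l → Walk E u w (a :: l)

/-- The graph is acyclic: there is no directed closed path with at least one edge. -/
def Acyclic (E : List (ℕ × ℕ × ℕ)) : Prop := ∀ u l, Walk E u u l → l = []

/-- The instances of `L-DAGREACH`, for a language `L` over the alphabet `{0, …, k - 1}`: all labels
are letters, the graph is acyclic, and some directed path from `s` to `t` has its yield in `L`. -/
def DagReach {k : ℕ} (L : Set (List (Fin k))) (I : Inst) : Prop :=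
  (∀ e ∈ I.1, e.2.1 < k) ∧ Acyclic I.1 ∧
    ∃ w : List (Fin k), w ∈ L ∧ Walk I.1 I.2.1 I.2.2 (w.map Fin.val)

/-- `L ∈ DAGREACH⁻¹(P)`. -/
def DagReachInP {k : ℕ} (L : Set (List (Fin k))) : Prop := InPP (DagReach L)

/-- The binary code of the letter `a` of the alphabet `{0, …, k - 1}`: its digits, in a block of
`max 1 ⌈log₂ k⌉` bits. For `k = 2` this is one bit. -/
def letterCode {k : ℕ} (a : Fin k) : List Bool :=
  (List.range (max 1 (Nat.clog 2 k))).map fun i => (a : ℕ).testBit i

/-- The language `L` in binary. -/
def binary {k : ℕ} (L : Set (List (Fin k))) : Set (List Bool) :=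
  {y | ∃ w ∈ L, y = w.flatMap letterCode}

end Pool.Agent.H877R3.DR
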