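import Mathlib

/-!
# The classes `NC^k` and `NC`: logspace-uniform circuits of fan-in two
-/

set_option autoImplicit false

namespace Pool.Agent.H877R3.DR

open Function (update)

/-! ## Circuits -/

/-- A gate of fan-in at most two; `i`, `j` are the numbers of earlier nodes of the circuit. -/
inductive Gate : Type
  | const (b : Bool) : Gate
  | not (i : ℕ) : Gate
  | and (i j : ℕ) : Gate
  | or (i j : ℕ) : Gate

/-- The value of a gate, given the list of the values of the earlier nodes. -/
def Gate.val (v : List Bool) : Gate → Bool
  | Gate.const b => b
  | Gate.not i => !(v.getD i false)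
  | Gate.and i j => v.getD i false && v.getD j false
  | Gate.or i j => v.getD i false || v.getD j false

/-- The depth of a gate, given the list of the depths of the earlier nodes. -/
def Gate.dep (d : List ℕ) : Gate → ℕ
  | Gate.const _ => 0
  | Gate.not i => d.getD i 0 + 1
  | Gate.and i j => max (d.getD i 0) (d.getD j 0) + 1
  | Gate.or i j => max (d.getD i 0) (d.getD j 0) + 1

/-- The values of all nodes of a circuit on the input `x`. A circuit is a list of gates; on inputs
of length `n` its nodes are the `n` input bits (numbered `0, …, n - 1`) followed by its gates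
(numbered `n, n + 1, …`). -/
def nodeVals (C : List Gate) (x : List Bool) : List Bool := C.foldl (fun v g => v ++ [g.val v]) x

/-- The output of a circuit: the value of its last node. -/
def output (C : List Gate) (x : List Bool) : Bool := (nodeVals C x).getLastD false

/-- The depths of all nodes of a circuit on inputs of length `n`. -/
def nodeDeps (C : List Gate) (n : ℕ) : List ℕ :=
  C.foldl (fun d g => d ++ [g.dep d]) (List.replicate n 0)

/-- `C` has depth at most `d` on inputs of length `n`: every node has depth at most `d`. -/
def DepthLE (C : List Gate) (n d : ℕ) : Prop := ∀ e ∈ nodeDeps C n, e ≤ d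

/-- A number in unary, ended by `false`. -/
def unary (i : ℕ) : List Bool := List.replicate i true ++ [false]

/-- The description of a gate as a bit string (node numbers are written in unary). -/
def Gate.desc : Gate → List Bool
  | Gate.const b => [false, false, b]
  | Gate.not i => [false, true] ++ unary i
  | Gate.and i j => [true, false] ++ (unary i ++ unary j)
  | Gate.or i j => [true, true] ++ (unary i ++ unary j)

/-- The description of a circuit: the descriptions of its gates, one after the other. -/
def desc (C : List Gate) : List Bool := C.flatMap Gate.desc

/-! ## Computations in logarithmic space on unary inputs -/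

/-- Programs of a machine with finitely many registers holding natural numbers, and a write-only
output tape of bits. `loop r s p` repeats `p` as long as the registers `r` and `s` differ. -/
inductive Prog : Type
  | zero (r : ℕ) : Prog
  | inc (r : ℕ) : Prog
  | dec (r : ℕ) : Prog
  | emit (b : Bool) : Prog
  | seq (p q : Prog) : Prog
  | loop (r s : ℕ) (p : Prog) : Prog

/-- `Run B p σ τ o`: started with register contents `σ`, the program `p` stops with register
contents `τ`, has written the bits `o`, and never stored a number greater than `B`. -/
inductive Run (B : ℕ) : Prog → (ℕ → ℕ) → (ℕ → ℕ) → List Bool → Prop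
  | zero (σ r) : Run B (Prog.zero r) σ (update σ r 0) []
  | inc (σ r) : σ r + 1 ≤ B → Run B (Prog.inc r) σ (update σ r (σ r + 1)) []
  | dec (σ r) : Run B (Prog.dec r) σ (update σ r (σ r - 1)) []
  | emit (σ b) : Run B (Prog.emit b) σ σ [b]
  | seq {p q σ τ ρ o o'} : Run B p σ τ o → Run B q τ ρ o' → Run B (Prog.seq p q) σ ρ (o ++ o')
  | loopDone {r s p σ} : σ r = σ s → Run B (Prog.loop r s p) σ σ []
  | loopStep {r s p σ τ ρ o o'} : σ r ≠ σ s → Run B p σ τ o → Run B (Prog.loop r s p) τ ρ o' →
      Run B (Prog.loop r s p) σ ρ (o ++ o')

/-- The initial register contents: the number `n` in register `0`, and `0` in all other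
registers. -/
def start (n : ℕ) : ℕ → ℕ := fun r => if r = 0 then n else 0

/-- The function `1^n ↦ f n` is computable in logarithmic space: some machine with finitely many
registers, holding numbers that are bounded by a polynomial in `n` (that is, of `O(log n)` bits),
started with `n`, writes `f n` and stops. -/
def LogSpace (f : ℕ → List Bool) : Prop :=
  ∃ (p : Prog) (b : Polynomial ℕ), ∀ n, ∃ τ, Run (b.eval n) p (start n) τ (f n)

/-- `L ∈ NC^k`: `L` is decided by a logspace-uniform family of fan-in-two circuits of polynomial
size and depth `O(log^k n)`. -/
def InNCk (k : ℕ) (L : Set (List Bool)) : Prop :=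
  ∃ C : ℕ → List Gate, LogSpace (fun n => desc (C n)) ∧
    (∃ s : Polynomial ℕ, ∀ n, (C n).length ≤ s.eval n) ∧
    (∃ c : ℕ, ∀ n, DepthLE (C n) n (c * (Nat.log 2 n) ^ k + c)) ∧
    ∀ x : List Bool, output (C x.length) x = true ↔ x ∈ L

/-- `L ∈ NC`. -/
def InNC (L : Set (List Bool)) : Prop := ∃ k, InNCk k L

end Pool.Agent.H877R3.DR
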